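import Mathlib

set_option autoImplicit false

open Polynomial ComplexConjugate

namespace Pool.Agent.Results.MP_987215_an.PointwiseFails

noncomputable section

/-- The number of times `w` occurs in the list `z`. -/
def mult {n : ℕ} (z : Fin n → ℂ) (w : ℂ) : ℕ := (Finset.univ.filter (fun j => z j = w)).card

/-- Self-conjugate lists: every non-real `w` occurs as often as its conjugate and every real
number occurs an even number of times. -/
def SelfConjugate {n : ℕ} (z : Fin n → ℂ) : Prop :=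
  (∀ w : ℂ, w.im ≠ 0 → mult z w = mult z (conj w)) ∧ (∀ w : ℂ, w.im = 0 → Even (mult z w))

/-- The nodal polynomial `∏ (z - z_j)`. -/
def nodal {n : ℕ} (z : Fin n → ℂ) : ℂ[X] := ∏ j, (X - C (z j))

/-- The class `𝓔_n(𝔻)` of entire functions with `|g^(n)| ≤ 1` on the closed unit disc. -/
def InClass (n : ℕ) (g : ℂ → ℂ) : Prop :=
  Differentiable ℂ g ∧ ∀ w : ℂ, ‖w‖ ≤ 1 → ‖iteratedDeriv n g w‖ ≤ 1

/-- `p` is the Hermite interpolant of `g` at the list `z`: degree at most `n - 1` and matching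
derivatives at each node up to its multiplicity. -/
def IsHermiteInterpolant {n : ℕ} (z : Fin n → ℂ) (g : ℂ → ℂ) (p : ℂ[X]) : Prop :=
  p.degree < n ∧ ∀ w : ℂ, ∀ i : ℕ, i < mult z w →
    iteratedDeriv i (fun x => p.eval x) w = iteratedDeriv i g w

/-- The equality asserted by the problem for `n`, `k`, the list `z` and the evaluation point `x`:
the supremum over the class of the interpolation error of the `k`-th derivative at `x` is
`|f^(k)(x)| / n!`. -/
def EqualityAt (n k : ℕ) (z : Fin n → ℂ) (x : ℂ) : Prop :=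
  IsLUB {e : ℝ | ∃ (g : ℂ → ℂ) (p : ℂ[X]), InClass n g ∧ IsHermiteInterpolant z g p ∧
      e = ‖iteratedDeriv k g x - (derivative^[k] p).eval x‖}
    (‖(derivative^[k] (nodal z)).eval x‖ / n.factorial)

/-- The test function `g(z) = z³/6`. -/
def gtest : ℂ → ℂ := fun x => x ^ 3 / 6

lemma gtest_deriv1 : deriv gtest = fun x => x ^ 2 / 2 := by
  funext x
  have h : HasDerivAt (fun x : ℂ => x ^ 3 / 6) (3 * x ^ 2 / 6) x := by
    have := (hasDerivAt_pow 3 x).div_const 6
    simpa using this
  show deriv (fun x : ℂ => x ^ 3 / 6) x = x ^ 2 / 2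
  rw [h.deriv]
  ring

lemma gtest_deriv2 : deriv (fun x : ℂ => x ^ 2 / 2) = fun x => x := by
  funext x
  have h : HasDerivAt (fun x : ℂ => x ^ 2 / 2) (2 * x / 2) x := by
    have := (hasDerivAt_pow 2 x).div_const 2
    simpa using this
  rw [h.deriv]
  ring

lemma gtest_inClass : InClass 2 gtest := by
  refine ⟨?_, ?_⟩
  · unfold gtest
    fun_prop
  · intro w hw
    rw [iteratedDeriv_succ, iteratedDeriv_one, gtest_deriv1, gtest_deriv2]
    exact hw

/-- The list `(a + b i, a - b i)`. -/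
def pair (a b : ℝ) : Fin 2 → ℂ := ![⟨a, b⟩, ⟨a, -b⟩]

lemma mult_pair (a b : ℝ) (w : ℂ) :
    mult (pair a b) w = (if (⟨a, b⟩ : ℂ) = w then 1 else 0) + (if (⟨a, -b⟩ : ℂ) = w then 1 else 0) := by
  unfold mult pair
  rw [Finset.card_filter, Fin.sum_univ_two]
  rfl

lemma pair_selfConjugate (a b : ℝ) (hb : b ≠ 0) : SelfConjugate (pair a b) := by
  constructor
  · intro w _
    rw [mult_pair, mult_pair, add_comm]
    congr 1
    · apply if_congr _ rfl rfl
      rw [Complex.ext_iff, Complex.ext_iff]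
      simp only [Complex.conj_re, Complex.conj_im]
      constructor
      · rintro ⟨h1, h2⟩
        exact ⟨h1, by linarith⟩
      · rintro ⟨h1, h2⟩
        exact ⟨h1, by linarith⟩
    · apply if_congr _ rfl rfl
      rw [Complex.ext_iff, Complex.ext_iff]
      simp only [Complex.conj_re, Complex.conj_im]
      constructor
      · rintro ⟨h1, h2⟩
        exact ⟨h1, by linarith⟩
      · rintro ⟨h1, h2⟩
        exact ⟨h1, by linarith⟩
  · intro w hw
    rw [mult_pair, if_neg, if_neg]
    · exact Even.zero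
    · intro h
      rw [← h] at hw
      simp at hw
      exact hb hw
    · intro h
      rw [← h] at hw
      exact hb hw

lemma pair_distinct (a b : ℝ) (hb : b ≠ 0) (w : ℂ) : mult (pair a b) w ≤ 1 := by
  rw [mult_pair]
  by_cases h1 : (⟨a, b⟩ : ℂ) = w
  · rw [if_pos h1, if_neg]
    intro h2
    rw [← h1, Complex.ext_iff] at h2
    have : -b = b := h2.2
    apply hb
    linarith
  · rw [if_neg h1]
    split_ifs <;> norm_num

/-- The Hermite (Lagrange) interpolant of `z³/6` at `a ± b i`:
`((3a² - b²) z - 2a(a² + b²))/6`. -/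
def ptest (a b : ℝ) : ℂ[X] :=
  C (((3 * a ^ 2 - b ^ 2) / 6 : ℝ) : ℂ) * X + C ((-(2 * a * (a ^ 2 + b ^ 2)) / 6 : ℝ) : ℂ)

lemma ptest_interpolant (a b : ℝ) (hb : b ≠ 0) :
    IsHermiteInterpolant (pair a b) gtest (ptest a b) := by
  refine ⟨?_, ?_⟩
  · have : (ptest a b).degree ≤ 1 := degree_linear_le
    exact lt_of_le_of_lt this (by norm_num)
  · intro w i hi
    have h1 := pair_distinct a b hb w
    have hi0 : i = 0 := by omega
    subst hi0
    rw [iteratedDeriv_zero, iteratedDeriv_zero]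
    have hw : w = ⟨a, b⟩ ∨ w = ⟨a, -b⟩ := by
      rw [mult_pair] at hi
      by_contra hcon
      push Not at hcon
      rw [if_neg (fun h => hcon.1 h.symm), if_neg (fun h => hcon.2 h.symm)] at hi
      omega
    unfold ptest gtest
    simp only [eval_add, eval_mul, eval_C, eval_X]
    rcases hw with rfl | rfl
    · apply Complex.ext <;> simp [pow_succ] <;> ring
    · apply Complex.ext <;> simp [pow_succ] <;> ring

lemma deriv_ptest (a b : ℝ) (x : ℂ) :
    (derivative^[1] (ptest a b)).eval x = (((3 * a ^ 2 - b ^ 2) / 6 : ℝ) : ℂ) := by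
  simp [ptest]

lemma deriv_nodal (a b : ℝ) (x : ℂ) :
    (derivative^[1] (nodal (pair a b))).eval x = 2 * x - ((2 * a : ℝ) : ℂ) := by
  unfold nodal pair
  rw [Fin.prod_univ_two]
  simp only [Function.iterate_one, derivative_mul, derivative_sub, derivative_X, derivative_C,
    eval_add, eval_sub, eval_X, eval_C, Matrix.cons_val_zero, Matrix.cons_val_one,
    sub_zero, one_mul, mul_one]
  apply Complex.ext
  · simp
    ring
  · simp
    ring

lemma iteratedDeriv_gtest (x : ℂ) : iteratedDeriv 1 gtest x = x ^ 2 / 2 := by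
  rw [iteratedDeriv_one, gtest_deriv1]

/-- Disproof of Q1: the asserted equality at the point `1` fails for the self-conjugate list
`(4/5 + 3i/5, 4/5 - 3i/5)` in the closed unit disc, `n = 2`, `k = 1`. -/
theorem result :
    ¬ ∀ (n k : ℕ), 1 ≤ n → k ≤ n - 1 → ∀ z : Fin n → ℂ, SelfConjugate z → (∀ j, ‖z j‖ ≤ 1) →
      EqualityAt n k z 1 := by
  intro H
  have h := H 2 1 (by norm_num) (by norm_num) (pair (4/5) (3/5))
    (pair_selfConjugate _ _ (by norm_num)) (by
      intro j
      have hn : ∀ a b : ℝ, a ^ 2 + b ^ 2 = 1 → ‖(⟨a, b⟩ : ℂ)‖ ≤ 1 := by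
        intro a b hab
        rw [Complex.norm_def, Complex.normSq_mk]
        apply Real.sqrt_le_one.2
        nlinarith
      fin_cases j
      · exact hn _ _ (by norm_num)
      · exact hn _ _ (by norm_num))
  have h1 := h.1 ⟨gtest, ptest (4/5) (3/5), gtest_inClass, ptest_interpolant _ _ (by norm_num), rfl⟩
  rw [deriv_ptest, deriv_nodal, iteratedDeriv_gtest] at h1
  have e1 : ((1:ℂ) ^ 2 / 2 - (((3 * (4/5 : ℝ) ^ 2 - (3/5 : ℝ) ^ 2) / 6 : ℝ) : ℂ))
      = ((6/25 : ℝ) : ℂ) := by
    push_cast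
    norm_num
  have e2 : (2 * (1:ℂ) - ((2 * (4/5 : ℝ) : ℝ) : ℂ)) = ((2/5 : ℝ) : ℂ) := by
    push_cast
    norm_num
  rw [e1, e2, Complex.norm_real, Complex.norm_real] at h1
  norm_num at h1

end

end Pool.Agent.Results.MP_987215_an.PointwiseFails
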